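import Mathlib
import Pool.Agent.H.MP_0b8746_pr.Main

set_option autoImplicit false
open MeasureTheory

namespace Pool.Agent.Results.MP_0b8746_pr.SmallError

/-- completion times: `C 0 j = C i 0 = 0`, `C i j = max (C (i-1) j) (C i (j-1)) + t`, where
`t i j` is the time of the `(i+1)`-th scheduled task on machine `j+1` -/
def comp (t : ℕ → ℕ → ℝ) : ℕ → ℕ → ℝ
  | 0, _ => 0
  | _ + 1, 0 => 0
  | i + 1, j + 1 => max (comp t i (j + 1)) (comp t (i + 1) j) + t i j

/-- optimal makespan: the minimum over all permutation schedules `π` of `C n m` -/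
noncomputable def opt (n m : ℕ) (T : Fin n × Fin m → ℝ) : ℝ :=
  (Finset.univ : Finset (Equiv.Perm (Fin n))).inf' Finset.univ_nonempty fun π =>
    comp (fun i j => if h : i < n ∧ j < m then T (π ⟨i, h.1⟩, ⟨j, h.2⟩) else 0) n m

theorem comp_eq (t : ℕ → ℕ → ℝ) (i j : ℕ) : comp t i j = H.MP_0b8746_pr.comp t i j := by
  induction i generalizing j with
  | zero => simp [comp, H.MP_0b8746_pr.comp]
  | succ i ih =>
    induction j with
    | zero => simp [comp, H.MP_0b8746_pr.comp]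
    | succ j ih2 => rw [comp, H.MP_0b8746_pr.comp, ih, ih2]

theorem opt_eq (n m : ℕ) : opt n m = H.MP_0b8746_pr.opt := by
  funext T
  simp only [opt, H.MP_0b8746_pr.opt, comp_eq, Finset.inf'_univ_eq_ciInf]

theorem result (F : Measure ℝ) [IsProbabilityMeasure F] (h0 : F (Set.Iio 0) = 0)
    (hF : MemLp id 2 F) (c : ℝ) (hc : 0 < c) :
    (∃ m0 : ℕ, ∀ m ≥ m0, ∃ n1 : ℕ, ∀ n ≥ n1,
      Integrable (opt n m) (Measure.pi fun _ => F) ∧
      ∫ T, opt n m T ∂(Measure.pi fun _ => F) - (n + m - 1) * ∫ x, x ∂F < c * √(m * n)) ∧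
    ∀ n0 : ℕ, ∃ m ≥ 3, ∃ n ≥ n0, 1 ≤ n ∧
      Integrable (opt n m) (Measure.pi fun _ => F) ∧
      ∫ T, opt n m T ∂(Measure.pi fun _ => F) - (n + m - 1) * ∫ x, x ∂F < c * √(m * n) := by
  simp only [opt_eq]
  obtain ⟨m0, h⟩ := H.MP_0b8746_pr.main F h0 hF c hc
  refine ⟨⟨m0, h⟩, fun n0 => ?_⟩
  obtain ⟨n1, h1⟩ := h (m0 + 3) (by omega)
  exact ⟨m0 + 3, by omega, n0 + n1 + 1, by omega, by omega, h1 _ (by omega)⟩

end Pool.Agent.Results.MP_0b8746_pr.SmallError
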